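import Mathlib
import Pool.Agent.Y502.Main

/-!
# A weak geodesic between Kaehler metrics with a slice that is not strictly positive

The compact Kaehler manifold is a complex torus `X = ℂ / Λ` of dimension one with the flat Kaehler
form `ω` which lifts to `dd^c |x|²` under the covering `ℂ → X`, whose restrictions to small discs
are the charts of `X`. Two smooth potentials `φ₁`, `φ₂` on `X` with `ω + dd^c φ_j > 0` are joined by
a weak geodesic `φ` over the annulus `a < |z| < b`, and for some `z` in this annulus the current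
`ω + dd^c φ(·, z)` is not strictly positive. This answers the question of Tosatti in the negative.

All notions entering the statement are defined in this file, over Mathlib alone. A function `f` on
`X` is lifted to the covering as `x ↦ f (x : ℂ ⧸ Λ)`, and a function `φ` on `X × ℂ` as
`(x, z) ↦ φ ((x : ℂ ⧸ Λ), z)`.
-/

set_option autoImplicit false

open MeasureTheory Metric Set Filter Topology
open scoped ContDiff ComplexOrder

namespace Pool.Agent.Results.MP_8d5978_gt.WeakGeodesicDegenerates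

section wirtinger

variable {E : Type*} [NormedAddCommGroup E] [NormedSpace ℝ E] [SMul ℂ E]

/-- The Wirtinger derivative of `f` in the complex direction `v`. For the `j`-th coordinate vector
it is `∂f/∂z_j = (∂f/∂x_j - i ∂f/∂y_j) / 2`. -/
noncomputable def wd (v : E) (f : E → ℂ) (p : E) : ℂ :=
  (fderiv ℝ f p v - Complex.I * fderiv ℝ f p (Complex.I • v)) / 2

/-- The conjugate Wirtinger derivative of `f` in the complex direction `v`. For the `j`-th
coordinate vector it is `∂f/∂z̄_j = (∂f/∂x_j + i ∂f/∂y_j) / 2`. -/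
noncomputable def wdb (v : E) (f : E → ℂ) (p : E) : ℂ :=
  (fderiv ℝ f p v + Complex.I * fderiv ℝ f p (Complex.I • v)) / 2

/-- The entry `∂²u/∂z_j∂z̄_k` of the complex Hessian of a real function `u` at `p`, when `v` and `w`
are the `j`-th and the `k`-th coordinate vectors. For `E = ℂ` and `v = w = 1` it is
`∂²u/∂z∂z̄`, one quarter of the Laplacian. -/
noncomputable def levi (u : E → ℝ) (p v w : E) : ℂ := wd v (wdb w fun q => (u q : ℂ)) p

end wirtinger

/-- The two coordinate vectors of `ℂ × ℂ`. -/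
def bas (j : Fin 2) : ℂ × ℂ := if j = 0 then (1, 0) else (0, 1)

/-- The complex Hessian matrix `(∂²u/∂z_j∂z̄_k)` of a real function on `ℂ × ℂ`. Up to a constant
factor, its determinant is the density of `(dd^c u)²` with respect to Lebesgue measure, when `u` is
of class `C²`. -/
noncomputable def hess (u : ℂ × ℂ → ℝ) (p : ℂ × ℂ) : Matrix (Fin 2) (Fin 2) ℂ :=
  Matrix.of fun j k => levi u p (bas j) (bas k)

/-- `u` is a continuous plurisubharmonic function on the open set `Ω ⊆ ℂ × ℂ`: it is continuous,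
and for every closed complex disc `{p + ζ d : |ζ| ≤ 1} ⊆ Ω` the value at the centre `p` is at most
the mean over the boundary circle. -/
def ContinuousPSH (Ω : Set (ℂ × ℂ)) (u : ℂ × ℂ → ℝ) : Prop :=
  ContinuousOn u Ω ∧ ∀ p d : ℂ × ℂ, (∀ ζ : ℂ, ‖ζ‖ ≤ 1 → p + ζ • d ∈ Ω) →
    u p ≤ Real.circleAverage (fun ζ => u (p + ζ • d)) 0 1

/-- `(dd^c u)² = 0` on `Ω` in the sense of Bedford and Taylor, for a locally bounded
plurisubharmonic function `u` on `Ω`: on every open `U` relatively compact in `Ω`, the function `u`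
is the pointwise limit of a decreasing sequence of smooth plurisubharmonic functions `v_k` whose
Monge-Ampere measures converge weakly to zero on `U`. -/
def MongeAmpereZero (Ω : Set (ℂ × ℂ)) (u : ℂ × ℂ → ℝ) : Prop :=
  ∀ U : Set (ℂ × ℂ), IsOpen U → IsCompact (closure U) → closure U ⊆ Ω →
    ∃ v : ℕ → ℂ × ℂ → ℝ,
      (∀ k, ContDiffOn ℝ ∞ (v k) U) ∧
      (∀ k, ∀ p ∈ U, (hess (v k) p).PosSemidef) ∧
      (∀ p ∈ U, Antitone fun k => v k p) ∧
      (∀ p ∈ U, Tendsto (fun k => v k p) atTop (𝓝 (u p))) ∧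
      ∀ χ : ℂ × ℂ → ℝ, Continuous χ → HasCompactSupport χ → tsupport χ ⊆ U →
        Tendsto (fun k => ∫ p, χ p * (hess (v k) p).det.re) atTop (𝓝 0)

variable {Λ : AddSubgroup ℂ}

/-- `f` is a smooth function on `X = ℂ / Λ` such that `ω + dd^c f` is a Kaehler form, that is,
`1 + ∂²f/∂x∂x̄ > 0` on the covering. -/
def IsKaehler (f : ℂ ⧸ Λ → ℝ) : Prop :=
  ContDiff ℝ ∞ (fun x : ℂ => f x) ∧ ∀ x : ℂ, 0 < 1 + (levi (fun y : ℂ => f y) x 1 1).re

/-- `φ` is the weak geodesic over the annulus `A = {a < |z| < b}` joining the Kaehler forms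
`ω + dd^c f₁` and `ω + dd^c f₂` on `X = ℂ / Λ`: it is bounded and continuous on `X × Ā`, equal to
`f₁` on `X × {|z| = a}` and to `f₂` on `X × {|z| = b}`, and on `X × A` it satisfies
`π^*ω + dd^c φ ≥ 0` and `(π^*ω + dd^c φ)² = 0`; on the covering `ℂ × A` this says that
`|x|² + φ(x, z)` is plurisubharmonic with vanishing Monge-Ampere measure. -/
def IsWeakGeodesic (a b : ℝ) (f₁ f₂ : ℂ ⧸ Λ → ℝ) (φ : (ℂ ⧸ Λ) × ℂ → ℝ) : Prop :=
  (∃ B, ∀ q : (ℂ ⧸ Λ) × ℂ, a ≤ ‖q.2‖ → ‖q.2‖ ≤ b → |φ q| ≤ B) ∧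
  ContinuousOn φ {q | a ≤ ‖q.2‖ ∧ ‖q.2‖ ≤ b} ∧
  (∀ x z, ‖z‖ = a → φ (x, z) = f₁ x) ∧
  (∀ x z, ‖z‖ = b → φ (x, z) = f₂ x) ∧
  ContinuousPSH {p | a < ‖p.2‖ ∧ ‖p.2‖ < b} (fun p => ‖p.1‖ ^ 2 + φ (p.1, p.2)) ∧
  MongeAmpereZero {p | a < ‖p.2‖ ∧ ‖p.2‖ < b} (fun p => ‖p.1‖ ^ 2 + φ (p.1, p.2))

/-- The current `ω + dd^c f` on `X = ℂ / Λ` is strictly positive: for some `ε > 0` it is at least
`ε ω` in the sense of currents, that is, `ε ∫ χ ω ≤ ∫ χ ω + ∫ f dd^c χ` for all smooth `χ ≥ 0` with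
compact support in the covering `ℂ`, where `dd^c χ = (∂²χ/∂x∂x̄) ω`. -/
def StrictlyPositive (f : ℂ ⧸ Λ → ℝ) : Prop :=
  ∃ ε > 0, ∀ χ : ℂ → ℝ, ContDiff ℝ ∞ χ → HasCompactSupport χ → (∀ x, 0 ≤ χ x) →
    ε * ∫ x, χ x ≤ ∫ x : ℂ, (χ x + f x * (levi χ x 1 1).re)

/-- Sanity check of the definitions: `0` is a Kaehler potential, it is the weak geodesic from `0` to
`0`, and `ω` itself is strictly positive. -/
theorem definitions_check (Λ : AddSubgroup ℂ) (a b : ℝ) :
    IsKaehler (fun _ : ℂ ⧸ Λ => 0) ∧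
    IsWeakGeodesic a b (fun _ : ℂ ⧸ Λ => 0) (fun _ => 0) (fun _ => 0) ∧
    StrictlyPositive (fun _ : ℂ ⧸ Λ => 0) :=
  Pool.Agent.Y502.check Λ a b

/-- **Q1, answered in the negative.** For every annulus `A = {a < |z| < b}` there are a compact
Kaehler manifold `X = ℂ / Λ` (with `Λ` a lattice in `ℂ`), Kaehler forms `ω + dd^c φ₁` and
`ω + dd^c φ₂` on it and a point `z` of `A` such that, for the weak geodesic `φ` joining them, the
current `ω + dd^c φ(·, z)` is not strictly positive. -/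
theorem result (a b : ℝ) (ha : 0 < a) (hab : a < b) :
    ∃ (Λ : AddSubgroup ℂ) (φ₁ φ₂ : ℂ ⧸ Λ → ℝ) (φ : (ℂ ⧸ Λ) × ℂ → ℝ) (z : ℂ),
      DiscreteTopology Λ ∧ CompactSpace (ℂ ⧸ Λ) ∧ IsKaehler φ₁ ∧ IsKaehler φ₂ ∧
      IsWeakGeodesic a b φ₁ φ₂ φ ∧ a < ‖z‖ ∧ ‖z‖ < b ∧ ¬ StrictlyPositive fun x => φ (x, z) :=
  Pool.Agent.Y502.main a b ha hab

end Pool.Agent.Results.MP_8d5978_gt.WeakGeodesicDegenerates
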